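import Mathlib

set_option autoImplicit false

open Set Topology Filter

namespace Pool.Agent.H.MP_bb0bf1_gt

variable {X : Type*} [TopologicalSpace X]

/-- closed preorders -/
def CP (r : X → X → Prop) : Prop :=
  (∀ x, r x x) ∧ (∀ x y z, r x y → r y z → r x z) ∧ IsClosed {p : X × X | r p.1 p.2}

/-- weak continuity -/
def WC (r : X → X → Prop) : Prop :=
  ∀ x y, r x y → ¬ r y x → ∃ f : X → ℝ, Continuous f ∧ (∀ a b, r a b → f a ≤ f b) ∧ f x < f y

/-- normality -/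
def Nor (r : X → X → Prop) : Prop :=
  ∀ A B : Set X, IsClosed A → IsClosed B → (∀ x ∈ A, ∀ z, r z x → z ∈ A) →
    (∀ x ∈ B, ∀ z, r x z → z ∈ B) → Disjoint A B → ∃ U V : Set X, IsOpen U ∧ IsOpen V ∧
      A ⊆ U ∧ B ⊆ V ∧ (∀ x ∈ U, ∀ z, r z x → z ∈ U) ∧ (∀ x ∈ V, ∀ z, r x z → z ∈ V) ∧ Disjoint U V

theorem nachbin {r : X → X → Prop} (h : Nor r) {A B : Set X} (hA : IsClosed A) (hB : IsClosed B)
    (dA : ∀ x ∈ A, ∀ z, r z x → z ∈ A) (dB : ∀ x ∈ B, ∀ z, r x z → z ∈ B) (hd : Disjoint A B) :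
    ∃ f : X → ℝ, Continuous f ∧ (∀ a b, r a b → f a ≤ f b) ∧ (∀ x ∈ A, f x = 0) ∧
      ∀ x ∈ B, f x = 1 := by
  let P : Set X → Set X → Prop := fun c u => (∀ x ∈ uᶜ, ∀ z, r x z → z ∈ uᶜ) ∧
    ∃ D, IsClosed D ∧ (∀ x ∈ D, ∀ z, r z x → z ∈ D) ∧ c ⊆ D ∧ D ⊆ u
  let c : Urysohns.CU P :=
    { C := A
      U := Bᶜ
      P_C_U := ⟨by simpa using dB, A, hA, dA, Subset.rfl, hd.subset_compl_right⟩
      closed_C := hA
      open_U := hB.isOpen_compl
      subset := hd.subset_compl_right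
      hP := by
        rintro c u - ⟨h1, D, h2, h3, h4, h5⟩ hu -
        obtain ⟨U, V, a1, a2, a3, a4, a5, a6, a7⟩ := h D uᶜ h2 hu.isClosed_compl h3 h1
          (disjoint_compl_right_iff_subset.2 h5)
        have b1 : closure U ⊆ Vᶜ := closure_minimal a7.subset_compl_right a2.isClosed_compl
        have b2 : Vᶜ ⊆ u := compl_subset_comm.1 a4
        exact ⟨U, a1, h4.trans a3, b1.trans b2,
          ⟨fun x hx z hz h => hx (a5 z h x hz), D, h2, h3, h4, a3⟩,
          h1, Vᶜ, a2.isClosed_compl, fun x hx z hz h => hx (a6 z h x hz), b1, b2⟩ }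
  have m : ∀ a b, r a b → ∀ n (c : Urysohns.CU P), c.approx n a ≤ c.approx n b := by
    intro a b hab n
    induction n with
    | zero =>
      intro c
      by_cases ha : a ∈ c.U
      · exact le_trans (by simp [Urysohns.CU.approx, ha]) (c.approx_nonneg 0 b)
      rw [c.approx_of_notMem_U 0 ha, c.approx_of_notMem_U 0 (c.P_C_U.1 a ha b hab)]
    | succ n ih => exact fun c => midpoint_le_midpoint (ih _) (ih _)
  exact ⟨c.lim, c.continuous_lim, fun a b hab => le_of_tendsto_of_tendsto'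
    (c.tendsto_approx_atTop a) (c.tendsto_approx_atTop b) fun n => m a b hab n c,
    fun x hx => c.lim_of_mem_C x hx, fun x hx => c.lim_of_notMem_U x fun h => h hx⟩

theorem sep_of_nor {r : X → X → Prop} (hr : CP r) (h : Nor r) {x y : X} (hxy : ¬ r y x) :
    ∃ f : X → ℝ, Continuous f ∧ (∀ a b, r a b → f a ≤ f b) ∧ f x < f y := by
  obtain ⟨f, h1, h2, h3, h4⟩ := nachbin h (A := {z | r z x}) (B := {z | r y z})
    (hr.2.2.preimage (f := fun z => (z, x)) (by fun_prop))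
    (hr.2.2.preimage (f := fun z => (y, z)) (by fun_prop))
    (fun _ h _ h' => hr.2.1 _ _ _ h' h) (fun _ h _ h' => hr.2.1 _ _ _ h h')
    (disjoint_left.2 fun _ h h' => hxy (hr.2.1 _ _ _ h' h))
  exact ⟨f, h1, h2, by rw [h3 x (hr.1 x), h4 y (hr.1 y)]; exact one_pos⟩

theorem nor_of_wc (h : ∀ r : X → X → Prop, CP r → WC r) {r : X → X → Prop} (hr : CP r) :
    Nor r := by
  intro A B hA hB dA dB hd
  rcases A.eq_empty_or_nonempty with rfl | ⟨a, ha⟩
  · exact ⟨∅, univ, by simp⟩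
  rcases B.eq_empty_or_nonempty with rfl | ⟨b, hb⟩
  · exact ⟨univ, ∅, by simp⟩
  have hd' := disjoint_left.1 hd
  obtain ⟨f, h1, h2, h3⟩ := h (fun x y => r x y ∨ x ∈ A ∨ y ∈ B) ⟨fun x => .inl (hr.1 x), by
    rintro x y z (h | h | h) (h' | h' | h')
    exacts [.inl (hr.2.1 _ _ _ h h'), .inr (.inl (dA _ h' _ h)), .inr (.inr h'), .inr (.inl h),
      .inr (.inl h), .inr (.inl h), .inr (.inr (dB _ h _ h')), (hd' h' h).elim, .inr (.inr h')],
    hr.2.2.union ((hA.preimage continuous_fst).union (hB.preimage continuous_snd))⟩ a b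
    (.inr (.inl ha)) (by
      rintro (h | h | h)
      exacts [hd' (dA _ ha _ h) hb, hd' h hb, hd' ha h])
  obtain ⟨t, h4, h5⟩ := exists_between h3
  exact ⟨f ⁻¹' Iio t, f ⁻¹' Ioi t, isOpen_Iio.preimage h1, isOpen_Ioi.preimage h1,
    fun x hx => (h2 x a (.inr (.inl hx))).trans_lt h4,
    fun x hx => h5.trans_le (h2 b x (.inr (.inr hx))),
    fun x hx z hz => (h2 z x (.inl hz)).trans_lt hx,
    fun x hx z hz => lt_of_lt_of_le hx (h2 x z (.inl hz)),
    disjoint_left.2 fun x h h' => lt_asymm (show f x < t from h) h'⟩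

theorem wc_iff : (∀ r : X → X → Prop, CP r → WC r) ↔ ∀ r : X → X → Prop, CP r → Nor r :=
  ⟨fun h _ hr => nor_of_wc h hr, fun h r hr _ _ _ hxy => sep_of_nor hr (h r hr) hxy⟩

end Pool.Agent.H.MP_bb0bf1_gt
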