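import Pool.Agent.H.MP_bb0bf1_gt.A

set_option autoImplicit false

open Set Topology Filter

namespace Pool.Agent.H.MP_bb0bf1_gt

variable {X : Type*} [TopologicalSpace X]

theorem CP.flip {r : X → X → Prop} (h : CP r) : CP fun x y => r y x :=
  ⟨h.1, fun _ _ _ a b => h.2.1 _ _ _ b a, h.2.2.preimage continuous_swap⟩

def Stp (C : Set X) : Prop := ∀ r : X → X → Prop, CP r → ∀ A B : Set X, IsClosed A → IsClosed B →
  (∀ x ∈ A, ∀ z, r z x → z ∈ A) → (∀ x ∈ B, ∀ z, r x z → z ∈ B) → Disjoint A B →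
    ∃ D, IsClosed D ∧ (∀ x ∈ D, ∀ z, r z x → z ∈ D) ∧ Disjoint D B ∧ A ⊆ D ∧ A ∩ C ⊆ interior D

theorem iter {C : ℕ → Set X} (hm : Monotone C) (hC : ∀ x, IsOpen {x} ∨ ∃ n, x ∈ C n)
    (hs : ∀ n, Stp (C n)) {r : X → X → Prop} (hr : CP r) : Nor r := by
  intro A B hA hB dA dB hd
  let S := {p : Set X × Set X // IsClosed p.1 ∧ IsClosed p.2 ∧ (∀ x ∈ p.1, ∀ z, r z x → z ∈ p.1) ∧
    (∀ x ∈ p.2, ∀ z, r x z → z ∈ p.2) ∧ Disjoint p.1 p.2}
  have : ∀ n (p : S), ∃ q : S, p.1.1 ⊆ q.1.1 ∧ p.1.2 ⊆ q.1.2 ∧ p.1.1 ∩ C n ⊆ interior q.1.1 ∧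
      p.1.2 ∩ C n ⊆ interior q.1.2 := by
    rintro n ⟨⟨A, B⟩, h1, h2, h3, h4, h5⟩
    obtain ⟨D, a1, a2, a3, a4, a5⟩ := hs n r hr A B h1 h2 h3 h4 h5
    obtain ⟨E, b1, b2, b3, b4, b5⟩ := hs n _ hr.flip B D h2 a1 h4 a2 a3.symm
    exact ⟨⟨(D, E), a1, b1, a2, b2, b3.symm⟩, a4, b4, a5, b5⟩
  choose nx h1 h2 h3 h4 using this
  let s : ℕ → S := fun n => Nat.rec ⟨(A, B), hA, hB, dA, dB, hd⟩ nx n
  have m1 : Monotone fun n => (s n).1.1 := monotone_nat_of_le_succ fun n => h1 n (s n)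
  have m2 : Monotone fun n => (s n).1.2 := monotone_nat_of_le_succ fun n => h2 n (s n)
  have op : ∀ T : ℕ → Set X, Monotone T → (∀ n, T n ∩ C n ⊆ interior (T (n + 1))) →
      IsOpen (⋃ n, T n) := fun T hT h => isOpen_iff_mem_nhds.2 fun x hx => by
    obtain ⟨n, hn⟩ := mem_iUnion.1 hx
    rcases hC x with h' | ⟨m, h'⟩
    · exact mem_of_superset (h'.mem_nhds rfl) (singleton_subset_iff.2 hx)
    exact mem_of_superset (mem_interior_iff_mem_nhds.1 (h (max n m)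
      ⟨hT (le_max_left _ _) hn, hm (le_max_right _ _) h'⟩)) (subset_iUnion _ _)
  refine ⟨⋃ n, (s n).1.1, ⋃ n, (s n).1.2, op _ m1 fun n => h3 n (s n), op _ m2 fun n => h4 n (s n),
    subset_iUnion (fun n => (s n).1.1) 0, subset_iUnion (fun n => (s n).1.2) 0, ?_, ?_, ?_⟩
  · intro x hx z hz
    obtain ⟨n, hn⟩ := mem_iUnion.1 hx
    exact mem_iUnion.2 ⟨n, (s n).2.2.2.1 x hn z hz⟩
  · intro x hx z hz
    obtain ⟨n, hn⟩ := mem_iUnion.1 hx
    exact mem_iUnion.2 ⟨n, (s n).2.2.2.2.1 x hn z hz⟩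
  refine disjoint_left.2 fun x hx hy => ?_
  obtain ⟨n, hn⟩ := mem_iUnion.1 hx
  obtain ⟨m, hm⟩ := mem_iUnion.1 hy
  exact disjoint_left.1 (s (max n m)).2.2.2.2.2 (m1 (le_max_left _ _) hn) (m2 (le_max_right _ _) hm)

theorem dcl {r : X → X → Prop} (hr : CP r) {N : Set X} (hN : IsCompact N) :
    IsClosed {z | ∃ x ∈ N, r z x} := by
  have := isCompact_iff_compactSpace.1 hN
  have h := isClosedMap_fst_of_compactSpace (X := X) (Y := N) _
    (hr.2.2.preimage (f := fun p : X × N => (p.1, p.2.1)) (by fun_prop))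
  convert h using 1
  ext z; simp

theorem stp_lc [LocallyCompactSpace X] {C : Set X} (hC : IsCompact C) : Stp C := by
  intro r hr A B hA hB dA dB hd
  obtain ⟨N, h1, h2, h3⟩ := exists_compact_between (hC.inter_left hA) hB.isOpen_compl
    (inter_subset_left.trans hd.subset_compl_right)
  refine ⟨A ∪ {z | ∃ x ∈ N, r z x}, hA.union (dcl hr h1), ?_, disjoint_union_left.2 ⟨hd, ?_⟩,
    subset_union_left, h2.trans (interior_mono fun x hx => .inr ⟨x, hx, hr.1 x⟩)⟩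
  · rintro x (hx | ⟨y, hy, hx⟩) z hz
    exacts [.inl (dA x hx z hz), .inr ⟨y, hy, hr.2.1 _ _ _ hz hx⟩]
  exact disjoint_left.2 fun z ⟨x, hx, hz⟩ h => h3 hx (dB z h x hz)

theorem stp_c {C : Set X} (hC : IsCompact C) (hK : ∀ x, IsOpen {x} ∨ x ∈ C) : Stp C := by
  intro r hr A B hA hB dA dB hd
  obtain ⟨V, W, v1, w1, v2, w2, h⟩ := generalized_tube_lemma (hC.inter_left hB) (hC.inter_left hA)
    hr.2.2.isOpen_compl fun p hp h => disjoint_left.1 hd (dA _ hp.2.1 _ h) hp.1.1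
  let E := {z | ∃ x ∈ W ∩ Bᶜ, r z x}
  have e1 : Disjoint (closure E ∩ C) B := disjoint_left.2 fun z hz hb => by
    obtain ⟨y, hy, x, hx, hyx⟩ := mem_closure_iff.1 hz.1 V v1 (v2 ⟨hb, hz.2⟩)
    exact h (mk_mem_prod hy hx.1) hyx
  refine ⟨A ∪ (E ∪ {z | ∃ x ∈ closure E ∩ C, r z x}), hA.union ?_, ?_,
    disjoint_union_left.2 ⟨hd, disjoint_union_left.2 ⟨?_, ?_⟩⟩, subset_union_left, ?_⟩
  · have := dcl hr (hC.inter_left (isClosed_closure (s := E)))
    refine closure_subset_iff_isClosed.1 ?_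
    rw [closure_union, this.closure_eq]
    refine union_subset (fun z hz => ?_) subset_union_right
    rcases hK z with h' | h'
    · obtain ⟨y, rfl, hy⟩ := mem_closure_iff.1 hz _ h' rfl
      exact .inl hy
    exact .inr ⟨z, ⟨hz, h'⟩, hr.1 z⟩
  · rintro x (hx | ⟨y, hy, hx⟩ | ⟨y, hy, hx⟩) z hz
    exacts [.inl (dA x hx z hz), .inr (.inl ⟨y, hy, hr.2.1 _ _ _ hz hx⟩),
      .inr (.inr ⟨y, hy, hr.2.1 _ _ _ hz hx⟩)]
  · exact disjoint_left.2 fun z ⟨x, hx, hz⟩ h => hx.2 (dB z h x hz)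
  · exact disjoint_left.2 fun z ⟨x, hx, hz⟩ h => disjoint_left.1 e1 hx (dB z h x hz)
  refine Subset.trans (b := W ∩ Bᶜ) (fun x hx => ⟨w2 hx, disjoint_left.1 hd hx.1⟩)
    (interior_maximal (fun x hx => .inr (.inl ⟨x, hx, hr.1 x⟩)) (w1.inter hB.isOpen_compl))

theorem iso (x : X) : IsOpen {x} ∨ x ∈ derivedSet (univ : Set X) := by
  rw [isOpen_singleton_iff_punctured_nhds, mem_derivedSet, AccPt]
  simpa using eq_or_neBot _

theorem suff {X : Type*} [MetricSpace X] (h : IsCompact (derivedSet (univ : Set X)) ∨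
    LocallyCompactSpace X ∧ TopologicalSpace.IsSeparable (derivedSet (univ : Set X)))
    {r : X → X → Prop} (hr : CP r) : Nor r := by
  rcases h with h | ⟨_, h⟩
  · exact iter (C := fun _ => derivedSet univ) monotone_const
      (fun x => (iso x).imp_right fun h => ⟨0, h⟩) (fun _ => stp_c h iso) hr
  have := h.secondCountableTopology
  have h1 : IsLindelof (derivedSet (univ : Set X)) := isLindelof_iff_lindelofSpace.2 inferInstance
  choose s hc hm using fun x : X => exists_compact_mem_nhds x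
  obtain ⟨t, h2, -, h3⟩ := h1.elim_nhds_subcover s fun x _ => hm x
  obtain ⟨C, h4, h5⟩ : IsSigmaCompact (⋃ x ∈ t, s x) := isSigmaCompact_biUnion h2 fun x _ =>
    (hc x).isSigmaCompact
  refine iter (C := accumulate C) monotone_accumulate (fun x => (iso x).imp_right fun h => ?_)
    (fun n => stp_lc (isCompact_accumulate h4 n)) hr
  obtain ⟨n, hn⟩ := mem_iUnion.1 (h5 ▸ h3 h)
  exact ⟨n, subset_accumulate hn⟩

end Pool.Agent.H.MP_bb0bf1_gt
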