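import Pool.Agent.H.MP_bb0bf1_gt.B

set_option autoImplicit false

open Set Topology Filter Metric

namespace Pool.Agent.H.MP_bb0bf1_gt

variable {X : Type*} [MetricSpace X]

theorem abs {ι : Type*} (H : ∀ r : X → X → Prop, CP r → Nor r) (b a : ι → X)
    (hc : IsClosed (range fun i => (b i, a i))) (hne : ∀ i j, a i ≠ b j) {A B : Set X}
    (hA : IsClosed A) (hB : IsClosed B) (ha : ∀ i, a i ∉ A) (hb : ∀ i, b i ∉ B)
    (hd : Disjoint A B) : ∃ U V, IsOpen U ∧ IsOpen V ∧ A ⊆ U ∧ B ⊆ V ∧ ∀ i, a i ∈ U → b i ∉ V := by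
  obtain ⟨U, V, h1, h2, h3, h4, h5, -, h6⟩ := H (fun x y => x = y ∨ ∃ i, (b i, a i) = (x, y))
    ⟨fun _ => .inl rfl, by
      rintro x y z (rfl | ⟨i, hi⟩) (rfl | ⟨j, hj⟩)
      exacts [.inl rfl, .inr ⟨j, hj⟩, .inr ⟨i, hi⟩,
        (hne i j ((Prod.ext_iff.1 hi).2.trans (Prod.ext_iff.1 hj).1.symm)).elim],
      isClosed_diagonal.union hc⟩ A B hA hB (by
      rintro x hx z (rfl | ⟨i, hi⟩)
      exacts [hx, (ha i ((Prod.mk.inj hi).2 ▸ hx)).elim]) (by
      rintro x hx z (rfl | ⟨i, hi⟩)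
      exacts [hx, (hb i ((Prod.mk.inj hi).1 ▸ hx)).elim]) hd
  exact ⟨U, V, h1, h2, h3, h4, fun i hi => disjoint_left.1 h6 (h5 _ hi _ (.inr ⟨i, rfl⟩))⟩

theorem exseq {s : Set X} (hs : IsClosed s) (h : ¬ IsCompact s) : ∃ u : ℕ → X, (∀ n, u n ∈ s) ∧
    ∀ y, ∃ δ > 0, ∀ᶠ n in atTop, δ ≤ dist (u n) y := by
  rw [isCompact_iff_isSeqCompact] at h
  simp only [IsSeqCompact, not_forall] at h
  obtain ⟨u, hu, h⟩ := h
  refine ⟨u, hu, fun y => ?_⟩
  by_contra hn
  push Not at hn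
  obtain ⟨φ, h1, h2⟩ := extraction_forall_of_frequently (P := fun k n => dist (u n) y < 1 / (k + 1))
    fun k => hn _ Nat.one_div_pos_of_nat
  have : Tendsto (u ∘ φ) atTop (𝓝 y) := tendsto_iff_dist_tendsto_zero.2 (squeeze_zero
    (fun _ => dist_nonneg) (fun n => (h2 n).le) tendsto_one_div_add_atTop_nhds_zero_nat)
  exact h ⟨y, hs.mem_of_tendsto this (.of_forall fun n => hu _), φ, h1, this⟩

theorem near {z : X} (hz : z ∈ derivedSet (univ : Set X)) {F : Set X} {δ : ℝ} (hδ : 0 < δ)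
    (hF : (F ∩ ball z δ).Finite) {ε : ℝ} (hε : 0 < ε) : ∃ b, dist b z < ε ∧ b ∉ F := by
  have : (𝓝[≠] z).NeBot := by simpa [mem_derivedSet, AccPt] using hz
  obtain ⟨b, ⟨h1, h2⟩, h3⟩ := Filter.nonempty_of_mem (nhdsNE_of_nhdsNE_sdiff_finite
    (mem_nhdsWithin_of_mem_nhds (inter_mem (ball_mem_nhds z hε) (ball_mem_nhds z hδ))) hF)
  exact ⟨b, h1, fun h => h3 ⟨h, h2⟩⟩

theorem clo {ι Y : Type*} [MetricSpace Y] {u : ι → Y}
    (h : ∀ y, ∃ δ > 0, ∀ᶠ i in cofinite, δ ≤ dist (u i) y) : IsClosed (range u) := by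
  rw [← iUnion_singleton_eq_range]
  refine LocallyFinite.isClosed_iUnion (fun y => ?_) fun _ => isClosed_singleton
  obtain ⟨δ, h1, h2⟩ := h y
  refine ⟨ball y δ, ball_mem_nhds y h1, h2.subset ?_⟩
  rintro i ⟨_, rfl, hi⟩
  exact fun h => (mem_ball.1 hi).not_ge h

theorem nec2 (H : ∀ r : X → X → Prop, CP r → Nor r) (h : ¬ IsCompact (derivedSet (univ : Set X))) :
    LocallyCompactSpace X := by
  refine (?_ : WeaklyLocallyCompactSpace X).locallyCompactSpace
  refine ⟨fun x => ?_⟩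
  by_contra hx
  push Not at hx
  obtain ⟨z0, z1, z2⟩ := exseq (isClosed_derivedSet _) h
  obtain ⟨δ, hδ, N, hN⟩ : ∃ δ > 0, ∃ N, ∀ n ≥ N, δ ≤ dist (z0 n) x := by simpa using z2 x
  let z : ℕ → X := fun n => z0 (n + N)
  have z3 : ∀ y, ∃ δ > 0, ∀ᶠ n in atTop, δ ≤ dist (z n) y := fun y =>
    (z2 y).imp fun _ h => ⟨h.1, (tendsto_add_atTop_nat N).eventually h.2⟩
  let ρ : ℕ → ℝ := fun n => δ / 3 * (1 / (n + 1))
  have r0 : ∀ n, 0 < ρ n := fun n => by positivity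
  have r1 : ∀ n, ρ n ≤ δ / 3 := fun n => mul_le_of_le_one_right (by positivity)
    (div_le_one_of_le₀ (by linarith [n.cast_nonneg (α := ℝ)]) (by positivity))
  have r2 : Tendsto ρ atTop (𝓝 0) := by
    simpa only [mul_zero] using tendsto_one_div_add_atTop_nhds_zero_nat.const_mul (δ / 3)
  have : ∀ n, ∃ a : ℕ → X, (∀ m, dist (a m) x ≤ ρ n ∧ a m ≠ x) ∧
      ∀ y, ∃ δ > 0, ∀ᶠ m in atTop, δ ≤ dist (a m) y := fun n => by
    obtain ⟨a, a1, a2⟩ := exseq isClosed_closedBall fun h => hx _ h (closedBall_mem_nhds x (r0 n))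
    obtain ⟨η, hη, M, hM⟩ : ∃ δ > 0, ∃ N, ∀ n ≥ N, δ ≤ dist (a n) x := by simpa using a2 x
    exact ⟨fun m => a (m + M), fun m => ⟨a1 _, dist_pos.1 (hη.trans_le (hM _ (by omega)))⟩,
      fun y => (a2 y).imp fun _ h => ⟨h.1, (tendsto_add_atTop_nat M).eventually h.2⟩⟩
  choose a a1 a2 using this
  have : ∀ p : ℕ × ℕ, ∃ b, dist b (z p.1) < min (ρ p.1) (ρ p.2) ∧ b ∉ range z := fun p => by
    obtain ⟨η, hη, h⟩ := z3 (z p.1)
    rw [← Nat.cofinite_eq_atTop] at h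
    refine near (z1 _) hη ((h.image z).subset ?_) (lt_min (r0 _) (r0 _))
    rintro _ ⟨⟨n, rfl⟩, hn⟩
    exact ⟨n, fun h => (mem_ball.1 hn).not_ge h, rfl⟩
  choose b b1 b2 using this
  have key := fun c1 c2 => abs H b (fun p => a p.1 p.2) (clo c1) c2 (A := {x}) (B := range z) isClosed_singleton
    (clo fun y => by simpa only [Nat.cofinite_eq_atTop] using z3 y) (fun p => (a1 _ _).2) b2
    (disjoint_singleton_left.2 fun ⟨n, hn⟩ => by
      have := hN (n + N) (by omega)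
      simp only [z] at hn
      rw [hn, dist_self] at this; linarith)
  refine absurd (key (fun y => ?_) fun p q h => ?_) fun ⟨U, V, h1, h2, h3, h4, h5⟩ => ?_
  rotate_right
  · obtain ⟨ε, e1, e2⟩ := Metric.isOpen_iff.1 h1 x (h3 rfl)
    obtain ⟨n, hn⟩ := (r2.eventually (gt_mem_nhds e1)).exists
    obtain ⟨η, e3, e4⟩ := Metric.isOpen_iff.1 h2 (z n) (h4 ⟨n, rfl⟩)
    obtain ⟨m, hm⟩ := (r2.eventually (gt_mem_nhds e3)).exists
    exact h5 (n, m) (e2 ((a1 n m).1.trans_lt hn))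
      (e4 ((b1 (n, m)).trans_le ((min_le_right _ _).trans hm.le)))
  · obtain ⟨η, e1, e2⟩ := z3 y.1
    obtain ⟨M, hM⟩ := eventually_atTop.1 (e2.and (r2.eventually (gt_mem_nhds (half_pos e1))))
    choose θ t1 t2 using fun n => a2 n y.2
    choose L hL using fun n => eventually_atTop.1 (t2 n)
    obtain ⟨ξ, x1, x2⟩ : ∃ ξ > 0, ∀ n < M, ξ ≤ θ n := by
      obtain ⟨n, hn⟩ := (Finset.range (M + 1)).exists_min_image θ ⟨0, by simp⟩
      exact ⟨θ n, t1 n, fun k hk => hn.2 k (by simp; omega)⟩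
    refine ⟨min ξ (η / 2), by positivity, (((finite_lt_nat M).biUnion fun n _ =>
      (finite_lt_nat (L n)).image fun m => (n, m))).subset fun p hp => ?_⟩
    by_contra hc
    refine hp ?_
    rcases lt_or_ge p.1 M with h | h
    · have : L p.1 ≤ p.2 := not_lt.1 fun h' => hc (mem_biUnion h ⟨p.2, h', rfl⟩)
      exact (min_le_left _ _).trans ((x2 _ h).trans ((hL _ _ this).trans (le_max_right _ _)))
    refine (min_le_right _ _).trans (le_trans ?_ (le_max_left (dist (b p) y.1) _))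
    have := (b1 p).trans_le (min_le_left _ _)
    have := dist_triangle_left (z p.1) y.1 (b p)
    linarith [(hM _ h).1, (hM _ h).2]
  have h1 := (a1 p.1 p.2).1.trans (r1 _)
  have h2 := (b1 q).trans_le ((min_le_left _ _).trans (r1 _))
  have h3 := hN (q.1 + N) (by omega)
  have h4 := dist_triangle_left (z q.1) x (b q)
  rw [h] at h1
  simp only [z] at h2 h4
  linarith

theorem exsep {s : Set X} (h : ¬ TopologicalSpace.IsSeparable s) :
    ∃ ε > 0, ∃ S ⊆ s, ¬ S.Countable ∧ S.Pairwise fun x y => ε ≤ dist x y := by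
  by_contra hn
  push Not at hn
  have : ∀ n : ℕ, ∃ S : Set X, S.Countable ∧ ∀ x ∈ s, ∃ y ∈ S, dist x y < 1 / (n + 1) := fun n => by
    obtain ⟨S, hS⟩ := zorn_subset {S | S ⊆ s ∧ S.Pairwise fun x y => 1 / ((n : ℝ) + 1) ≤ dist x y}
      fun c h1 h2 => ⟨⋃₀ c, ⟨sUnion_subset fun t ht => (h1 ht).1,
        (pairwise_sUnion h2.directedOn).2 fun t ht => (h1 ht).2⟩, fun _ => subset_sUnion_of_mem⟩
    refine ⟨S, by_contra fun hc => hn _ Nat.one_div_pos_of_nat S hS.1.1 hc hS.1.2, fun x hx => ?_⟩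
    by_contra hy
    push Not at hy
    have := hS.2 (y := insert x S) ⟨insert_subset hx hS.1.1, hS.1.2.insert fun y h _ =>
      ⟨hy y h, dist_comm x y ▸ hy y h⟩⟩ (subset_insert _ _) (mem_insert _ _)
    have := hy x this
    rw [dist_self] at this
    exact this.not_gt Nat.one_div_pos_of_nat
  choose S h1 h2 using this
  refine h ⟨⋃ n, S n, countable_iUnion h1, fun x hx => Metric.mem_closure_iff.2 fun ε hε => ?_⟩
  obtain ⟨n, hn⟩ := exists_nat_one_div_lt hε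
  obtain ⟨y, h3, h4⟩ := h2 n x hx
  exact ⟨y, mem_iUnion.2 ⟨n, h3⟩, h4.trans hn⟩

theorem comb (S : Type*) [Uncountable S] : ∃ ν : S → S → ℕ,
    ∀ u v : S → ℕ, ∃ α β, u α ≤ ν α β ∧ v β ≤ ν α β := by
  obtain ⟨_, _⟩ := exists_wellFoundedLT S
  let I := {α : S | (Iio α).Countable}
  have hI : ¬ I.Countable := fun h => by
    rcases Iᶜ.eq_empty_or_nonempty with h' | h'
    · rw [compl_empty_iff.1 h'] at h
      exact not_countable_univ h
    exact wellFounded_lt.min_mem _ h' (h.mono fun α hα =>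
      by_contra fun hc => wellFounded_lt.not_lt_min Iᶜ hc hα)
  have : ∀ β : S, ∃ f : S → ℕ, β ∈ I → InjOn f (Iio β) := fun β => by
    by_cases h : β ∈ I
    · exact (countable_iff_exists_injOn.1 h).imp fun _ h _ => h
    exact ⟨0, fun h' => (h h').elim⟩
  choose f hf using this
  refine ⟨fun α β => f β α, fun u v => ?_⟩
  obtain ⟨k, hk⟩ : ∃ k, (I ∩ u ⁻¹' {k}).Infinite := by
    by_contra hn
    push Not at hn
    exact hI ((countable_iUnion fun k => (hn k).countable).mono fun α h =>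
      mem_iUnion.2 ⟨u α, mem_inter h (mem_preimage.2 rfl)⟩)
  obtain ⟨T, h1, h3, h2⟩ := hk.exists_subset_countable_infinite
  obtain ⟨β, b1, b2⟩ : ∃ β ∈ I, β ∉ ⋃ α ∈ T, Iic α := not_subset.1 fun h => hI
    ((h3.biUnion fun α hα => by rw [← Iio_insert]; exact (h1 hα).1.insert _).mono h)
  have h4 : T ⊆ Iio β := fun α hα => not_le.1 fun h => b2 (mem_biUnion hα h)
  obtain ⟨_, ⟨α, a1, rfl⟩, a2⟩ := (h2.image ((hf β b1).mono h4)).exists_gt (max k (v β))
  exact ⟨α, β, by rw [(h1 a1).2]; exact (le_max_left _ _).trans a2.le,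
    (le_max_right _ _).trans a2.le⟩

theorem nec1 (H : ∀ r : X → X → Prop, CP r → Nor r) :
    TopologicalSpace.IsSeparable (derivedSet (univ : Set X)) := by
  by_contra hn
  obtain ⟨ε, hε, S, h1, h2, h3⟩ := exsep hn
  have : Uncountable S := not_countable_iff.1 (mt countable_coe_iff.1 h2)
  obtain ⟨e⟩ : Nonempty (S × Bool ↪ S) := Cardinal.le_def _ _ |>.1 (by
    simp [mul_two, Cardinal.add_eq_self (Cardinal.aleph0_le_mk S)])
  have he : ∀ p q, p ≠ q → ε ≤ dist (e p : X) (e q) := fun p q h =>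
    h3 (e p).2 (e q).2 fun h' => h (e.injective (Subtype.ext h'))
  let ρ : ℕ → ℝ := fun n => ε / 3 * (1 / (n + 1))
  have r1 : ∀ n, ρ n ≤ ε / 3 := fun n => mul_le_of_le_one_right (by positivity)
    (div_le_one_of_le₀ (by linarith [n.cast_nonneg (α := ℝ)]) (by positivity))
  have r2 : Tendsto ρ atTop (𝓝 0) := by
    simpa only [mul_zero] using tendsto_one_div_add_atTop_nhds_zero_nat.const_mul (ε / 3)
  have : ∀ p n, ∃ b, dist b (e p : X) < ρ n ∧ b ∉ ({(e p : X)} : Set X) := fun p n =>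
    near (h1 (e p).2) one_pos ((finite_singleton _).inter_of_left _) (by positivity)
  choose s s1 s2 using this
  have s3 : ∀ p q n m, p ≠ q → ε / 3 ≤ dist (s p n) (s q m) := fun p q n m h => by
    have := dist_triangle4 (e p : X) (s p n) (s q m) (e q)
    rw [dist_comm _ (s p n)] at this
    linarith [he p q h, s1 p n, s1 q m, r1 n, r1 m]
  have s4 : ∀ p q n, s p n ≠ e q := fun p q n h => by
    rcases eq_or_ne p q with rfl | h'
    · exact s2 p n h
    have := s1 p n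
    rw [h, dist_comm] at this
    linarith [he p q h', r1 n]
  have c1 : ∀ t : Bool, IsClosed (range fun α => (e (α, t) : X)) := fun t =>
    isClosed_of_pairwise_le_dist hε (by
      rintro _ ⟨α, rfl⟩ _ ⟨β, rfl⟩ h
      exact he _ _ (by rintro ⟨⟩; exact h rfl))
  obtain ⟨ν, hν⟩ := comb S
  obtain ⟨U, V, a1, a2, a3, a4, a5⟩ := abs H (fun p : S × S => s (p.2, true) (ν p.1 p.2))
    (fun p => s (p.1, false) (ν p.1 p.2))
    (isClosed_of_pairwise_le_dist (ε := ε / 3) (by positivity) (by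
      rintro _ ⟨p, rfl⟩ _ ⟨q, rfl⟩ h
      by_cases h' : p.1 = q.1
      · exact (s3 (p.2, true) (q.2, true) _ _ fun h'' =>
          h (by rw [Prod.ext h' (Prod.mk.inj h'').1])).trans (le_max_left _ _)
      exact (s3 (p.1, false) (q.1, false) _ _ fun h'' => h' (Prod.mk.inj h'').1).trans
        (le_max_right _ _)))
    (fun p q h => by
      have := s3 (p.1, false) (q.2, true) (ν p.1 p.2) (ν q.1 q.2) (by simp)
      rw [h, dist_self] at this; linarith)
    (c1 false) (c1 true) (fun p ⟨_, h⟩ => s4 _ _ _ h.symm) (fun p ⟨_, h⟩ => s4 _ _ _ h.symm)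
    (disjoint_left.2 (by
      rintro _ ⟨α, rfl⟩ ⟨β, h⟩
      simpa using e.injective (Subtype.ext h)))
  have ev : ∀ (W : Set X) p, IsOpen W → (e p : X) ∈ W → ∃ N, ∀ n ≥ N, s p n ∈ W := fun W p h1 h2 => by
    obtain ⟨η, e1, e2⟩ := Metric.isOpen_iff.1 h1 _ h2
    exact eventually_atTop.1 ((r2.eventually (gt_mem_nhds e1)).mono fun n hn =>
      e2 ((s1 p n).trans hn))
  choose u hu using fun α => ev U (α, false) a1 (a3 ⟨α, rfl⟩)
  choose v hv using fun α => ev V (α, true) a2 (a4 ⟨α, rfl⟩)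
  obtain ⟨α, β, b1, b2⟩ := hν u v
  exact a5 (α, β) (hu _ _ b1) (hv _ _ b2)

theorem metr : (∀ r : X → X → Prop, CP r → Nor r) ↔ IsCompact (derivedSet (univ : Set X)) ∨
    LocallyCompactSpace X ∧ TopologicalSpace.IsSeparable (derivedSet (univ : Set X)) :=
  ⟨fun H => or_iff_not_imp_left.2 fun h => ⟨nec2 H h, nec1 H⟩, fun h _ hr => suff h hr⟩

end Pool.Agent.H.MP_bb0bf1_gt
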